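import Mathlib
import Pool.Agent.helper95.PY2.Spec2

/-!
# Row LCE of project pe: from near sets to cells
-/

set_option autoImplicit false

open Finset

namespace Pool.Agent.PY2

lemma LCE_en_mono {p : ℕ} {X Y : Finset (ZMod p)} (h : X ⊆ Y) : en X ≤ en Y := by
  unfold en
  refine card_le_card ?_
  refine filter_subset_filter _ ?_
  exact product_subset_product (product_subset_product h h) (product_subset_product h h)

/-- the three positions of the value of a near point. -/
lemma LCE_pos {p : ℕ} [Fact p.Prime] {N : ℕ} (hN : 2 * N < p) {x y : ZMod p}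
    (h : (x - y).valMinAbs.natAbs < N) :
    ∃ t : ℤ, |t| < N ∧ ((x.val : ℤ) = y.val + t ∨ (x.val : ℤ) = y.val + p + t ∨
      (x.val : ℤ) = y.val - p + t) := by
  refine ⟨(x - y).valMinAbs, ?_, ?_⟩
  · rw [Int.abs_eq_natAbs]
    exact_mod_cast h
  · set t : ℤ := (x - y).valMinAbs with ht
    have ht1 : |t| < N := by
      rw [Int.abs_eq_natAbs]
      exact_mod_cast h
    have h1 : (((x.val : ℤ) - y.val - t : ℤ) : ZMod p) = 0 := by
      push_cast
      rw [ht, ZMod.coe_valMinAbs, ZMod.natCast_zmod_val, ZMod.natCast_zmod_val]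
      ring
    rw [ZMod.intCast_zmod_eq_zero_iff_dvd] at h1
    obtain ⟨k, hk⟩ := h1
    have hx := ZMod.val_lt x
    have hy := ZMod.val_lt y
    have h2 := abs_lt.1 ht1
    have hk1 : k < 2 := by
      by_contra hc
      push Not at hc
      nlinarith
    have hk2 : -2 < k := by
      by_contra hc
      push Not at hc
      nlinarith
    have hk3 : k = -1 ∨ k = 0 ∨ k = 1 := by omega
    rcases hk3 with rfl | rfl | rfl
    · right; right; linarith
    · left; linarith
    · right; left; linarith

/-- few cells meet an interval. -/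
lemma LCE_icc {L : ℕ} (hL : 1 ≤ L) (N : ℕ) (c : ℤ) :
    ((Icc ((c - N) / (L : ℤ)) ((c + N) / (L : ℤ))).card : ℝ) ≤ 2 * N / L + 2 := by
  have hL0 : (0 : ℝ) < L := by exact_mod_cast hL
  have hLz : (0 : ℤ) < L := by exact_mod_cast hL
  have h1 : (c - N) / (L : ℤ) ≤ (c + N) / (L : ℤ) + 1 := by
    have := Int.ediv_le_ediv hLz (show c - (N : ℤ) ≤ c + N by linarith [(Nat.cast_nonneg N : (0 : ℤ) ≤ N)])
    linarith
  have h2 : ((Icc ((c - N) / (L : ℤ)) ((c + N) / (L : ℤ))).card : ℤ) =
      (c + N) / (L : ℤ) + 1 - (c - N) / (L : ℤ) := by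
    rw [Int.card_Icc, Int.toNat_of_nonneg]
    linarith
  have h3 : ((Icc ((c - N) / (L : ℤ)) ((c + N) / (L : ℤ))).card : ℝ) =
      (((c + N) / (L : ℤ) : ℤ) : ℝ) + 1 - (((c - N) / (L : ℤ) : ℤ) : ℝ) := by
    exact_mod_cast congrArg (fun z : ℤ => (z : ℝ)) h2
  rw [h3]
  have h4 : (((c + N) / (L : ℤ) : ℤ) : ℝ) * L ≤ c + N := by
    have := Int.ediv_mul_le (c + N) hLz.ne'
    exact_mod_cast this
  have h5 : (c : ℝ) - N < ((((c - N) / (L : ℤ) : ℤ) : ℝ) + 1) * L := by
    have := Int.lt_ediv_add_one_mul_self (c - N) hLz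
    exact_mod_cast this
  have h6 : (((c + N) / (L : ℤ) : ℤ) : ℝ) ≤ (c + N) / L := by
    rw [le_div_iff₀ hL0]
    exact h4
  have h7 : ((c : ℝ) - N) / L < (((c - N) / (L : ℤ) : ℤ) : ℝ) + 1 := by
    rw [div_lt_iff₀ hL0]
    exact h5
  have h8 : ((c : ℝ) + N) / L = (c - N) / L + 2 * N / L := by
    field_simp
    ring
  linarith

lemma LCE_cells {p : ℕ} [Fact p.Prime] {N L : ℕ} (hL : 1 ≤ L) (hLN : L ≤ N) (hN : 2 * N < p)
    (J : Finset ℕ) (f : ℕ → ZMod p) (hf : ∀ j ∈ J, (f j).val / L = j) (y : ZMod p)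
    (hy : ∀ j ∈ J, (y - f j).valMinAbs.natAbs < N) : (J.card : ℝ) ≤ 12 * ((N : ℝ) / L) := by
  classical
  have hL0 : (0 : ℝ) < L := by exact_mod_cast hL
  have hLz : (0 : ℤ) < L := by exact_mod_cast hL
  have h1 : J.image (fun j : ℕ => (j : ℤ)) ⊆
      (Icc (((y.val : ℤ) - N) / (L : ℤ)) (((y.val : ℤ) + N) / (L : ℤ)) ∪
      Icc (((y.val : ℤ) + p - N) / (L : ℤ)) (((y.val : ℤ) + p + N) / (L : ℤ))) ∪
      Icc (((y.val : ℤ) - p - N) / (L : ℤ)) (((y.val : ℤ) - p + N) / (L : ℤ)) := by
    intro z hz
    rw [mem_image] at hz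
    obtain ⟨j, hj, rfl⟩ := hz
    have h2 : (f j - y).valMinAbs.natAbs < N := by
      rw [← neg_sub, ZMod.natAbs_valMinAbs_neg]
      exact hy j hj
    obtain ⟨t, ht, hc⟩ := LCE_pos hN h2
    have ht' := abs_lt.1 ht
    have h3 : (j : ℤ) = ((f j).val : ℤ) / (L : ℤ) := by
      have := hf j hj
      rw [← Int.natCast_div, this]
    rw [mem_union, mem_union, mem_Icc, mem_Icc, mem_Icc]
    rcases hc with hc | hc | hc
    · left; left
      rw [h3, hc]
      exact ⟨Int.ediv_le_ediv hLz (by linarith), Int.ediv_le_ediv hLz (by linarith)⟩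
    · left; right
      rw [h3, hc]
      exact ⟨Int.ediv_le_ediv hLz (by linarith), Int.ediv_le_ediv hLz (by linarith)⟩
    · right
      rw [h3, hc]
      exact ⟨Int.ediv_le_ediv hLz (by linarith), Int.ediv_le_ediv hLz (by linarith)⟩
  have h2 := card_le_card h1
  rw [card_image_of_injective _ Nat.cast_injective] at h2
  have h3 := h2.trans ((card_union_le _ _).trans (Nat.add_le_add_right (card_union_le _ _) _))
  have h4 : (J.card : ℝ) ≤ ((Icc (((y.val : ℤ) - N) / (L : ℤ)) (((y.val : ℤ) + N) / (L : ℤ))).card : ℝ) +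
      ((Icc (((y.val : ℤ) + p - N) / (L : ℤ)) (((y.val : ℤ) + p + N) / (L : ℤ))).card : ℝ) +
      ((Icc (((y.val : ℤ) - p - N) / (L : ℤ)) (((y.val : ℤ) - p + N) / (L : ℤ))).card : ℝ) := by
    exact_mod_cast h3
  have h5 := LCE_icc hL N (y.val : ℤ)
  have h6 := LCE_icc hL N ((y.val : ℤ) + p)
  have h7 := LCE_icc hL N ((y.val : ℤ) - p)
  have h8 : (1 : ℝ) ≤ (N : ℝ) / L := by
    rw [le_div_iff₀ hL0]
    rw [one_mul]
    exact_mod_cast hLN
  have h9 : 2 * (N : ℝ) / L = 2 * (N / L) := by ring
  rw [h9] at h5 h6 h7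
  linarith

theorem LCE : LCE_stmt := by
  classical
  intro p _ N L K B hL hLN hN hK
  have hL0 : (0 : ℝ) < L := by exact_mod_cast hL
  have hK0 : (0 : ℝ) < K := by linarith
  set bad : ℕ → Prop := fun j => ∃ x ∈ cl B L j, K * ((cl B L j).card : ℝ) < ((nbh B N x).card : ℝ)
    with hbad
  refine ⟨B.filter fun b => ¬ bad (b.val / L), filter_subset _ _, ?_, ?_, ?_⟩
  · intro j
    by_cases hj : bad j
    · left
      unfold cl
      rw [filter_filter, filter_eq_empty_iff]
      rintro b _ ⟨h1, h2⟩
      rw [h2] at h1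
      exact h1 hj
    · right
      unfold cl
      rw [filter_filter]
      refine filter_congr fun b _ => ?_
      constructor
      · exact fun h => h.2
      · intro h
        refine ⟨?_, h⟩
        rw [h]
        exact hj
  · -- the bad part
    set J : Finset ℕ := (range (p / L + 1)).filter fun j => bad j with hJ
    have hch : ∀ j ∈ J, ∃ x ∈ cl B L j, K * ((cl B L j).card : ℝ) < ((nbh B N x).card : ℝ) := by
      intro j hj
      rw [hJ, mem_filter] at hj
      exact hj.2
    choose! f hf1 hf2 using hch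
    have hcard : ((B \ B.filter fun b => ¬ bad (b.val / L)).card : ℝ) = ∑ j ∈ J, ((cl B L j).card : ℝ) := by
      have h1 : (B \ B.filter fun b => ¬ bad (b.val / L)) = B.filter fun b => bad (b.val / L) := by
        ext b
        rw [mem_sdiff, mem_filter, mem_filter]
        constructor
        · rintro ⟨h1, h2⟩
          refine ⟨h1, ?_⟩
          by_contra h3
          exact h2 ⟨h1, h3⟩
        · rintro ⟨h1, h2⟩
          exact ⟨h1, fun h3 => h3.2 h2⟩
      rw [h1]
      have h2 : ∀ b ∈ (B.filter fun b => bad (b.val / L)), b.val / L ∈ J := by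
        intro b hb
        rw [mem_filter] at hb
        rw [hJ, mem_filter, mem_range]
        refine ⟨?_, hb.2⟩
        have := Nat.div_le_div_right (c := L) (ZMod.val_lt b).le
        omega
      rw [card_eq_sum_card_fiberwise h2]
      push_cast
      refine sum_congr rfl fun j hj => ?_
      congr 2
      unfold cl
      rw [filter_filter]
      refine filter_congr fun b _ => ?_
      constructor
      · exact fun h => h.2
      · intro h
        refine ⟨?_, h⟩
        rw [h]
        rw [hJ, mem_filter] at hj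
        exact hj.2
    rw [hcard, mul_sum]
    have h1 : ∑ j ∈ J, K * ((cl B L j).card : ℝ) ≤ ∑ j ∈ J, ((nbh B N (f j)).card : ℝ) :=
      sum_le_sum fun j hj => (hf2 j hj).le
    refine h1.trans ?_
    have h2 : ∑ j ∈ J, ((nbh B N (f j)).card : ℝ) =
        ∑ y ∈ B, ((J.filter fun j => (y - f j).valMinAbs.natAbs < N).card : ℝ) := by
      unfold nbh
      simp_rw [← sum_boole]
      rw [sum_comm]
    rw [h2]
    have h3 : ∀ y ∈ B, ((J.filter fun j => (y - f j).valMinAbs.natAbs < N).card : ℝ) ≤
        100 * ((N : ℝ) / L) ^ 2 := by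
      intro y _
      have h4 := LCE_cells hL hLN hN (J.filter fun j => (y - f j).valMinAbs.natAbs < N) f (by
        intro j hj
        rw [mem_filter] at hj
        have := hf1 j hj.1
        unfold cl at this
        rw [mem_filter] at this
        exact this.2) y (by
        intro j hj
        rw [mem_filter] at hj
        exact hj.2)
      have h8 : (1 : ℝ) ≤ (N : ℝ) / L := by
        rw [le_div_iff₀ hL0, one_mul]
        exact_mod_cast hLN
      nlinarith
    refine (sum_le_sum h3).trans (le_of_eq ?_)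
    rw [sum_const, nsmul_eq_mul]
    ring
  · -- the good part
    unfold loc
    have hmap : ∀ x ∈ B, x.val / L ∈ range (p / L + 1) := by
      intro b _
      rw [mem_range]
      have := Nat.div_le_div_right (c := L) (ZMod.val_lt b).le
      omega
    rw [← sum_fiberwise_of_maps_to hmap, mul_sum]
    refine sum_le_sum fun j _ => ?_
    have hR0 : 0 ≤ K ^ 3 * ∑ x ∈ B with x.val / L = j, (en (nbh B N x) : ℝ) / ((nbh B N x).card : ℝ) ^ 3 := by
      refine mul_nonneg (by positivity) (sum_nonneg fun x _ => by positivity)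
    by_cases hj : bad j
    · have h1 : cl (B.filter fun b => ¬ bad (b.val / L)) L j = ∅ := by
        unfold cl
        rw [filter_filter, filter_eq_empty_iff]
        rintro b _ ⟨h1, h2⟩
        rw [h2] at h1
        exact h1 hj
      rw [h1]
      simpa using hR0
    · have h1 : cl (B.filter fun b => ¬ bad (b.val / L)) L j = cl B L j := by
        unfold cl
        rw [filter_filter]
        refine filter_congr fun b _ => ?_
        constructor
        · exact fun h => h.2
        · intro h
          refine ⟨?_, h⟩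
          rw [h]
          exact hj
      rw [h1]
      by_cases hD : (cl B L j) = ∅
      · rw [hD]
        simpa using hR0
      have hD0 : 0 < (cl B L j).card := card_pos.2 (nonempty_iff_ne_empty.2 hD)
      have hD0r : (0 : ℝ) < ((cl B L j).card : ℝ) := by exact_mod_cast hD0
      have h2 : (en (cl B L j) : ℝ) / ((cl B L j).card : ℝ) ^ 2 =
          ∑ x ∈ cl B L j, (en (cl B L j) : ℝ) / ((cl B L j).card : ℝ) ^ 3 := by
        rw [sum_const, nsmul_eq_mul]
        field_simp
      rw [h2, mul_sum]
      refine sum_le_sum fun x hx => ?_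
      have hxB : x ∈ B ∧ x.val / L = j := by
        unfold cl at hx
        rw [mem_filter] at hx
        exact hx
      have hsub : cl B L j ⊆ nbh B N x := by
        intro y hy
        unfold cl at hy
        rw [mem_filter] at hy
        unfold nbh
        rw [mem_filter]
        refine ⟨hy.1, ?_⟩
        have h3 : (((y - x).valMinAbs : ℤ) : ZMod p) = (((y.val : ℤ) - x.val : ℤ) : ZMod p) := by
          push_cast
          rw [ZMod.natCast_zmod_val, ZMod.natCast_zmod_val]
        have h4 := ZMod.natAbs_min_of_le_div_two p _ _ h3 (ZMod.natAbs_valMinAbs_le _)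
        refine lt_of_le_of_lt h4 ?_
        have h5 := Nat.div_add_mod y.val L
        have h6 := Nat.div_add_mod x.val L
        rw [hy.2] at h5
        rw [hxB.2] at h6
        have h7 := Nat.mod_lt y.val hL
        have h8 := Nat.mod_lt x.val hL
        omega
      have hnb : ((nbh B N x).card : ℝ) ≤ K * ((cl B L j).card : ℝ) := by
        by_contra hc
        push Not at hc
        exact hj ⟨x, hx, hc⟩
      have hn0 : (0 : ℝ) < ((nbh B N x).card : ℝ) :=
        lt_of_lt_of_le hD0r (by exact_mod_cast card_le_card hsub)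
      have hen : (en (cl B L j) : ℝ) ≤ en (nbh B N x) := by exact_mod_cast LCE_en_mono hsub
      rw [← mul_div_assoc, div_le_div_iff₀ (by positivity) (by positivity)]
      have h9 : ((nbh B N x).card : ℝ) ^ 3 ≤ (K * ((cl B L j).card : ℝ)) ^ 3 :=
        pow_le_pow_left₀ hn0.le hnb 3
      calc (en (cl B L j) : ℝ) * ((nbh B N x).card : ℝ) ^ 3
          ≤ (en (nbh B N x) : ℝ) * (K * ((cl B L j).card : ℝ)) ^ 3 :=
            mul_le_mul hen h9 (by positivity) (by positivity)
        _ = K ^ 3 * (en (nbh B N x) : ℝ) * ((cl B L j).card : ℝ) ^ 3 := by ring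

end Pool.Agent.PY2
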